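import Mathlib
import Pool.Agent.EXS.Defs
import Pool.Agent.EXS.Main
import Pool.Agent.EXS.Exist

/-!
# `MP_bb0bbc_gt`: product type embeddings give the standard form

For every `n`, every family `M t` and every product type embedding of `Sⁿ × S¹` in `ℂ ^ (n + 1)`
the form `ω̃` is standard, by a diffeomorphism with compact support.
-/

open Pool.Agent.EXS

namespace Pool.Agent.Results.MP_bb0bbc_gt.ProductType

theorem result (n : ℕ) : ProductTypeStandard (EuclideanSpace ℝ (Fin (n + 1))) ∧
    ∀ R r c : ℝ, 0 < r → 2 * c ≤ r ^ 2 →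
      ∃ K, IsProdEmbedding (stdJ (EuclideanSpace ℝ (Fin (n + 1))) r) K R c := by
  refine ⟨?_, ?_⟩
  · intro J K M N R R₀ T A B c s hJ hM hs hT hR hTB hBA hc
    exact ⟨exists_transfer hM hJ hs hT hR hTB hBA hc,
      fun Om hOm => transfer_standard hM hJ hs hT hR hTB hBA hc Om hOm⟩
  · intro R r c hr hc
    exact ⟨K₀ r, isProdEmbedding₀ R r c hr hc⟩

end Pool.Agent.Results.MP_bb0bbc_gt.ProductType
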